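import Pool.Agent.H34.WeakP
import Pool.Agent.H34.WeakKDefs

namespace Pool.Agent.Results.MP_96acc4_lc.Factor
open Pool.Agent.H34.WeakP Cardinal Filter Set

theorem result (K : Type) (u : Ultrafilter ℕ) (hu : WeakPk #K u) (l : List (Ultrafilter K))
    (h : ∃ f : List K → ℕ, u = (prodL l).map f) : ∃ v ∈ l, ∃ g : K → ℕ, u = v.map g := by
  induction l with
  | nil => exact h.elim fun f e => absurd e (hu.1 _)
  | cons v l ih =>
    obtain ⟨f, e⟩ := h
    let t : K → Ultrafilter ℕ := fun x => (prodL l).map fun y => f (x :: y)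
    by_cases c : ∃ x, u = t x
    · exact (ih (c.elim fun x q => ⟨_, q⟩)).imp fun w r => ⟨List.mem_cons_of_mem _ r.1, r.2⟩
    by_cases q : ∀ᶠ x in v, Free (t x)
    · refine absurd (cl_iff.2 fun Z hZ => ?_) (hu.2 (t '' {x | Free (t x)})
        (mk_image_le.trans (mk_set_le _)) (by rintro _ ⟨x, r, rfl⟩; exact ⟨r, fun s => c ⟨x, s.symm⟩⟩))
      have : ∀ᶠ x in v, Z ∈ t x := by rw [e] at hZ; exact hZ
      exact (this.and q).exists.elim fun x r => ⟨_, ⟨x, r.2, rfl⟩, r.1⟩
    have : ∀ x, ∃ j, ¬ Free (t x) → t x = pure j := fun x => by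
      by_cases r : Free (t x)
      · exact ⟨0, fun s => absurd r s⟩
      · exact (not_forall.1 r).imp fun _ s _ => not_not.1 s
    choose σ hσ using this
    exact ⟨v, List.mem_cons_self, σ, e.trans (Ultrafilter.ext fun Z => eventually_congr
      (p := fun x => Z ∈ t x) (q := fun x => σ x ∈ Z)
      ((Ultrafilter.eventually_not.2 q).mono fun x r => by rw [hσ x r]; rfl))⟩

end Pool.Agent.Results.MP_96acc4_lc.Factor
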